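import Mathlib
import Pool.Agent.H95R2.Leh.Tot

/-!
# Iterates of `n + φ(n)` that eventually double: the period
-/

set_option autoImplicit false

namespace Pool.Agent.Results.MP_df8f2d_nt.AtLeastThreeSteps

open Finset Nat

/-- `n + φ(n)` -/
def g (n : ℕ) : ℕ := n + Nat.totient n

/-- the odd part of `m` -/
def oddPart (m : ℕ) : ℕ := m / 2 ^ (m.factorization 2)

/-! ### An inequality for products over primes -/

lemma big (m B : ℕ) (hB1 : 1 ≤ B) (hB : B ^ m ≤ (B - 1) ^ (m + 1)) :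
    ∀ p, B ≤ p → p ^ m ≤ (p - 1) ^ (m + 1) := by
  intro p hp
  induction p, hp using Nat.le_induction with
  | base => exact hB
  | succ p hp ih =>
    have hp0 : 0 < p := by omega
    have h1 : (p + 1) ^ m * p ^ m ≤ p ^ (m + 1) * p ^ m := by
      calc (p + 1) ^ m * p ^ m ≤ (p + 1) ^ m * (p - 1) ^ (m + 1) := Nat.mul_le_mul_left _ ih
        _ = ((p + 1) * (p - 1)) ^ m * (p - 1) := by rw [mul_pow]; ring
        _ ≤ (p * p) ^ m * p := by
            apply Nat.mul_le_mul _ (Nat.sub_le _ _)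
            apply Nat.pow_le_pow_left
            obtain ⟨c, rfl⟩ : ∃ c, p = c + 1 := ⟨p - 1, by omega⟩
            simp only [Nat.add_sub_cancel]
            nlinarith
        _ = p ^ (m + 1) * p ^ m := by rw [mul_pow]; ring
    have h2 := Nat.le_of_mul_le_mul_right h1 (Nat.pow_pos hp0)
    simpa using h2

lemma lp (T S : Finset ℕ) (k : ℕ) (hT : ∀ p ∈ T, (p - 1) ^ k * p ≤ p ^ k)
    (hS : ∀ p ∈ S, p ∈ T ∨ p ^ k ≤ (p - 1) ^ k * p) :
    (∏ p ∈ S, p) ^ k * ∏ p ∈ T, ((p - 1) ^ k * p) ≤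
      (∏ p ∈ S, ((p - 1) ^ k * p)) * (∏ p ∈ T, p) ^ k := by
  have e1 : ∀ f : ℕ → ℕ, ∏ p ∈ S, f p = (∏ p ∈ S ∩ T, f p) * ∏ p ∈ S \ T, f p := by
    intro f
    exact (Finset.prod_inter_mul_prod_sdiff S T f).symm
  have e2 : ∀ f : ℕ → ℕ, ∏ p ∈ T, f p = (∏ p ∈ S ∩ T, f p) * ∏ p ∈ T \ S, f p := by
    intro f
    rw [Finset.inter_comm]
    exact (Finset.prod_inter_mul_prod_sdiff T S f).symm
  rw [← Finset.prod_pow, ← Finset.prod_pow, e1, e2, e1, e2 (fun p => p ^ k)]
  have h1 : ∏ p ∈ S \ T, p ^ k ≤ ∏ p ∈ S \ T, ((p - 1) ^ k * p) := by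
    apply Finset.prod_le_prod' 
    intro p hp
    rw [Finset.mem_sdiff] at hp
    exact (hS p hp.1).resolve_left hp.2
  have h2 : ∏ p ∈ T \ S, ((p - 1) ^ k * p) ≤ ∏ p ∈ T \ S, p ^ k := by
    apply Finset.prod_le_prod'
    intro p hp
    rw [Finset.mem_sdiff] at hp
    exact hT p hp.1
  calc ((∏ p ∈ S ∩ T, p ^ k) * ∏ p ∈ S \ T, p ^ k) *
        ((∏ p ∈ S ∩ T, ((p - 1) ^ k * p)) * ∏ p ∈ T \ S, ((p - 1) ^ k * p))
      ≤ ((∏ p ∈ S ∩ T, p ^ k) * ∏ p ∈ S \ T, ((p - 1) ^ k * p)) *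
        ((∏ p ∈ S ∩ T, ((p - 1) ^ k * p)) * ∏ p ∈ T \ S, p ^ k) :=
        Nat.mul_le_mul (Nat.mul_le_mul_left _ h1) (Nat.mul_le_mul_left _ h2)
    _ = _ := by ring

lemma ratio (T S : Finset ℕ) (k X num den : ℕ) (hk : k ≠ 0)
    (hT : ∀ p ∈ T, (p - 1) ^ k * p ≤ p ^ k)
    (hS : ∀ p ∈ S, 0 < p ∧ (p ∈ T ∨ p ^ k ≤ (p - 1) ^ k * p))
    (hT0 : 0 < ∏ p ∈ T, p)
    (hnum : (num * ∏ p ∈ T, p) ^ k * X ≤ (den * ∏ p ∈ T, (p - 1)) ^ k * ∏ p ∈ T, p)
    (hX : ∏ p ∈ S, p ≤ X) :
    num * ∏ p ∈ S, p ≤ den * ∏ p ∈ S, (p - 1) := by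
  have h := lp T S k hT (fun p hp => (hS p hp).2)
  rw [Finset.prod_mul_distrib, Finset.prod_mul_distrib, Finset.prod_pow, Finset.prod_pow] at h
  have hR : 0 < ∏ p ∈ S, p := Finset.prod_pos (fun p hp => (hS p hp).1)
  generalize (∏ p ∈ S, p) = R at *
  generalize (∏ p ∈ S, (p - 1)) = A at *
  generalize (∏ p ∈ T, p) = P at *
  generalize (∏ p ∈ T, (p - 1)) = Q at *
  by_contra hcon
  push Not at hcon
  have h1 : (den * A) ^ k < (num * R) ^ k := Nat.pow_lt_pow_left hcon hk
  have hX0 : 0 < X := lt_of_lt_of_le hR hX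
  have h2 : den ^ k * (R ^ k * (Q ^ k * P)) ≤ den ^ k * (A ^ k * R * P ^ k) :=
    Nat.mul_le_mul_left _ h
  have h3 : den ^ k * (A ^ k * R * P ^ k) ≤ (den * A) ^ k * (X * P ^ k) := by
    rw [mul_pow]
    calc den ^ k * (A ^ k * R * P ^ k) = den ^ k * A ^ k * (R * P ^ k) := by ring
      _ ≤ den ^ k * A ^ k * (X * P ^ k) := Nat.mul_le_mul_left _ (Nat.mul_le_mul_right _ hX)
  have h4 : (den * A) ^ k * (X * P ^ k) < (num * R) ^ k * (X * P ^ k) :=
    Nat.mul_lt_mul_of_pos_right h1 (Nat.mul_pos hX0 (Nat.pow_pos hT0))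
  have h5 : (num * R) ^ k * (X * P ^ k) = R ^ k * ((num * P) ^ k * X) := by
    rw [mul_pow, mul_pow]; ring
  have h6 : R ^ k * ((num * P) ^ k * X) ≤ R ^ k * ((den * Q) ^ k * P) := Nat.mul_le_mul_left _ hnum
  have h7 : R ^ k * ((den * Q) ^ k * P) = den ^ k * (R ^ k * (Q ^ k * P)) := by
    rw [mul_pow]; ring
  omega

/-! ### The numerical data -/

/-- test for small primes -/
def tst (p : ℕ) : Bool := (List.range 12).all (fun d => p % (d + 2) != 0 || p == d + 2)

lemma tst_of_prime {p : ℕ} (hp : p.Prime) : tst p = true := by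
  unfold tst
  rw [List.all_eq_true]
  intro d _
  by_cases h : p % (d + 2) = 0
  · have h1 : d + 2 ∣ p := Nat.dvd_of_mod_eq_zero h
    rcases (Nat.dvd_prime hp).1 h1 with h2 | h2
    · omega
    · simp [← h2]
  · simp [h]

def T1 : Finset ℕ := (Finset.Ico 5 191).filter (fun p => tst p = true)
def T2 : Finset ℕ := (Finset.Ico 5 173).filter (fun p => p % 3 = 2 ∧ tst p = true)
def T0 : Finset ℕ := (Finset.Ico 5 17).filter (fun p => tst p = true)

lemma T1_le : ∀ p ∈ T1, (p - 1) ^ 1000 * p ≤ p ^ 1000 := by decide +kernel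
lemma T1_pos : 0 < ∏ p ∈ T1, p := by decide +kernel
lemma T1_num : (31 * ∏ p ∈ T1, p) ^ 1000 * 10 ^ 83 ≤
    (100 * ∏ p ∈ T1, (p - 1)) ^ 1000 * ∏ p ∈ T1, p := by decide +kernel
lemma T1_big : 191 ^ 999 ≤ (191 - 1) ^ (999 + 1) := by decide +kernel

lemma T2_le : ∀ p ∈ T2, (p - 1) ^ 888 * p ≤ p ^ 888 := by decide +kernel
lemma T2_pos : 0 < ∏ p ∈ T2, p := by decide +kernel
lemma T2_num : (93 * ∏ p ∈ T2, p) ^ 888 * 10 ^ 83 ≤
    (200 * ∏ p ∈ T2, (p - 1)) ^ 888 * ∏ p ∈ T2, p := by decide +kernel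
lemma T2_big : 173 ^ 887 ≤ (173 - 1) ^ (887 + 1) := by decide +kernel

lemma T0_le : ∀ p ∈ T0, (p - 1) ^ 46 * p ≤ p ^ 46 := by decide +kernel
lemma T0_pos : 0 < ∏ p ∈ T0, p := by decide +kernel
lemma T0_num : (43 * ∏ p ∈ T0, p) ^ 46 * 3000000 ≤
    (100 * ∏ p ∈ T0, (p - 1)) ^ 46 * ∏ p ∈ T0, p := by decide +kernel
lemma T0_big : 17 ^ 45 ≤ (17 - 1) ^ (45 + 1) := by decide +kernel

/-! ### Lower bounds for `φ(b) / b` -/

lemma rad_le {b : ℕ} (hb : 0 < b) : ∏ p ∈ b.primeFactors, p ≤ b :=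
  Nat.le_of_dvd hb (Nat.prod_primeFactors_dvd b)

lemma tot_of_ratio {b num den : ℕ}
    (h : num * ∏ p ∈ b.primeFactors, p ≤ den * ∏ p ∈ b.primeFactors, (p - 1)) :
    num * b ≤ den * φ b := by
  have h1 := Nat.totient_mul_prod_primeFactors b
  have hR : 0 < ∏ p ∈ b.primeFactors, p :=
    Finset.prod_pos (fun p hp => (Nat.prime_of_mem_primeFactors hp).pos)
  refine Nat.le_of_mul_le_mul_right ?_ hR
  calc num * b * ∏ p ∈ b.primeFactors, p = b * (num * ∏ p ∈ b.primeFactors, p) := by ring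
    _ ≤ b * (den * ∏ p ∈ b.primeFactors, (p - 1)) := Nat.mul_le_mul_left _ h
    _ = den * (b * ∏ p ∈ b.primeFactors, (p - 1)) := by ring
    _ = den * (φ b * ∏ p ∈ b.primeFactors, p) := by rw [h1]
    _ = den * φ b * ∏ p ∈ b.primeFactors, p := by ring

lemma five_le {b p : ℕ} (hodd : b % 2 = 1) (h3 : ¬ 3 ∣ b) (hp : p ∈ b.primeFactors) :
    p.Prime ∧ 5 ≤ p := by
  have h1 := Nat.prime_of_mem_primeFactors hp
  have h2 := Nat.dvd_of_mem_primeFactors hp
  refine ⟨h1, ?_⟩
  have h3' : p ≠ 3 := by rintro rfl; exact h3 h2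
  have h2' : p ≠ 2 := by rintro rfl; omega
  have h4' : p ≠ 4 := by rintro rfl; norm_num at h1
  have := h1.two_le
  omega

/-- `3 ∤ b` -/
lemma lemA {b : ℕ} (hb : 0 < b) (hodd : b % 2 = 1) (h3 : ¬ 3 ∣ b) (hX : b ≤ 10 ^ 83) :
    31 * b ≤ 100 * φ b := by
  apply tot_of_ratio
  refine ratio T1 _ 1000 (10 ^ 83) 31 100 (by norm_num) T1_le ?_ T1_pos T1_num
    ((rad_le hb).trans hX)
  intro p hp
  obtain ⟨h1, h5⟩ := five_le hodd h3 hp
  refine ⟨h1.pos, ?_⟩
  rcases Nat.lt_or_ge p 191 with h | h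
  · left
    unfold T1
    rw [Finset.mem_filter, Finset.mem_Ico]
    exact ⟨⟨h5, h⟩, tst_of_prime h1⟩
  · right
    calc p ^ 1000 = p ^ 999 * p := by rw [← pow_succ]
      _ ≤ (p - 1) ^ 1000 * p := Nat.mul_le_mul_right _ (big 999 191 (by norm_num) T1_big p h)

/-- `3 ∤ b` and a small radical -/
lemma lemA0 {b : ℕ} (hodd : b % 2 = 1) (h3 : ¬ 3 ∣ b)
    (hX : ∏ p ∈ b.primeFactors, p ≤ 3000000) : 43 * b ≤ 100 * φ b := by
  apply tot_of_ratio
  refine ratio T0 _ 46 3000000 43 100 (by norm_num) T0_le ?_ T0_pos T0_num hX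
  intro p hp
  obtain ⟨h1, h5⟩ := five_le hodd h3 hp
  refine ⟨h1.pos, ?_⟩
  rcases Nat.lt_or_ge p 17 with h | h
  · left
    unfold T0
    rw [Finset.mem_filter, Finset.mem_Ico]
    exact ⟨⟨h5, h⟩, tst_of_prime h1⟩
  · right
    calc p ^ 46 = p ^ 45 * p := by rw [← pow_succ]
      _ ≤ (p - 1) ^ 46 * p := Nat.mul_le_mul_right _ (big 45 17 (by norm_num) T0_big p h)

/-- `3 ∣ b`, `3 ∤ φ(b)` -/
lemma lemB {b : ℕ} (hb : 0 < b) (hodd : b % 2 = 1) (h3 : 3 ∣ b) (h3' : ¬ 3 ∣ φ b)
    (hX : b ≤ 10 ^ 83) : 31 * b ≤ 100 * φ b := by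
  apply tot_of_ratio
  have hmem : 3 ∈ b.primeFactors := Nat.mem_primeFactors.2 ⟨Nat.prime_three, h3, hb.ne'⟩
  have e1 : ∏ p ∈ b.primeFactors, p = 3 * ∏ p ∈ b.primeFactors.erase 3, p :=
    (Finset.mul_prod_erase _ _ hmem).symm
  have e2 : ∏ p ∈ b.primeFactors, (p - 1) = 2 * ∏ p ∈ b.primeFactors.erase 3, (p - 1) :=
    (Finset.mul_prod_erase _ (fun p => p - 1) hmem).symm
  have h := rad_le hb
  rw [e1] at h
  have key := ratio T2 (b.primeFactors.erase 3) 888 (10 ^ 83) 93 200 (by norm_num) T2_le (by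
    intro p hp
    rw [Finset.mem_erase] at hp
    have h1 := Nat.prime_of_mem_primeFactors hp.2
    have h2 := Nat.dvd_of_mem_primeFactors hp.2
    have h2' : p ≠ 2 := by rintro rfl; omega
    have h4' : p ≠ 4 := by rintro rfl; norm_num at h1
    have h5 : 5 ≤ p := by have := h1.two_le; have := hp.1; omega
    have hm : p % 3 = 2 := by
      have hm0 : p % 3 ≠ 0 := by
        intro h0
        have := (Nat.prime_dvd_prime_iff_eq Nat.prime_three h1).1 (Nat.dvd_of_mod_eq_zero h0)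
        exact hp.1 this.symm
      have hm1 : p % 3 ≠ 1 := by
        intro h0
        apply h3'
        have h6 : φ p ∣ φ b := Nat.totient_dvd_of_dvd h2
        rw [Nat.totient_prime h1] at h6
        exact (by omega : 3 ∣ p - 1).trans h6
      omega
    refine ⟨h1.pos, ?_⟩
    rcases Nat.lt_or_ge p 173 with h | h
    · left
      unfold T2
      rw [Finset.mem_filter, Finset.mem_Ico]
      exact ⟨⟨h5, h⟩, hm, tst_of_prime h1⟩
    · right
      calc p ^ 888 = p ^ 887 * p := by rw [← pow_succ]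
        _ ≤ (p - 1) ^ 888 * p := Nat.mul_le_mul_right _ (big 887 173 (by norm_num) T2_big p h))
    T2_pos T2_num (by omega)
  rw [e1, e2]
  omega

/-! ### The cycle -/

/-- an odd number with `φ(Q) ≡ 2 mod 4` is a power of a prime `q ≡ 3 mod 4` -/
lemma prime_power {Q : ℕ} (hodd : Q % 2 = 1) (h1 : 1 < Q) (h : φ Q % 4 = 2) :
    ∃ q j : ℕ, q.Prime ∧ q % 4 = 3 ∧ Q = q ^ (j + 1) := by
  obtain ⟨q, hq, hqQ⟩ := Nat.exists_prime_and_dvd (by omega : Q ≠ 1)
  have hq2 : q % 2 = 1 := by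
    rcases hq.eq_two_or_odd with h2 | h2
    · subst h2; omega
    · exact h2
  have hq4 : q % 4 = 3 := by
    have h2 : φ q ∣ φ Q := Nat.totient_dvd_of_dvd hqQ
    rw [Nat.totient_prime hq] at h2
    obtain ⟨c, hc⟩ := h2
    by_contra hne
    have h4 : 4 ∣ q - 1 := by omega
    have : 4 ∣ φ Q := by rw [hc]; exact Dvd.dvd.mul_right h4 c
    omega
  obtain ⟨j, m, hm, hQ⟩ := Nat.exists_eq_pow_mul_and_not_dvd (by omega : Q ≠ 0) q hq.ne_one
  have hm1 : m = 1 := by
    by_contra hne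
    have hm0 : 0 < m := by
      rcases Nat.eq_zero_or_pos m with h0 | h0
      · subst h0; simp at hm
      · exact h0
    have hmo : m % 2 = 1 := by
      by_contra hme
      have : 2 ∣ Q := by rw [hQ]; exact Dvd.dvd.mul_left (by omega) _
      omega
    have hcop : Nat.Coprime (q ^ j) m := Nat.Coprime.pow_left j ((Nat.Prime.coprime_iff_not_dvd hq).2 hm)
    have hj : j ≠ 0 := by
      rintro rfl
      rw [pow_zero, one_mul] at hQ
      exact hm (hQ ▸ hqQ)
    have h2 : 2 ∣ φ m := (Nat.totient_even (by omega)).two_dvd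
    have h3 : 2 ∣ φ (q ^ j) := by
      have : 2 < q ^ j := lt_of_lt_of_le (by have := hq.two_le; omega : 2 < q) (Nat.le_self_pow hj q)
      exact (Nat.totient_even this).two_dvd
    have h4 : 2 * 2 ∣ φ Q := by
      rw [hQ, Nat.totient_mul hcop]
      exact Nat.mul_dvd_mul h3 h2
    omega
  subst hm1
  rw [mul_one] at hQ
  have hj : j ≠ 0 := by
    rintro rfl
    rw [pow_zero] at hQ
    omega
  obtain ⟨i, rfl⟩ : ∃ i, j = i + 1 := ⟨j - 1, by omega⟩
  exact ⟨q, i, hq, hq4, hQ⟩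

/-- The cycle of the odd parts. -/
lemma core (r : ℕ) (hr : 3 ≤ r) (b : ℕ → ℕ) (hodd : ∀ i < r, b i % 2 = 1) (h1 : ∀ i < r, 1 < b i)
    (hstep : ∀ i, i + 1 < r → 2 * b (i + 1) = 2 * b i + φ (b i))
    (h0 : 4 * b 0 = 2 * b (r - 1) + φ (b (r - 1))) : 10 ^ 83 < b (r - 1) := by
  by_contra hcon
  push Not at hcon
  have hmono : ∀ i j, i ≤ j → j < r → b i ≤ b j := by
    intro i j hij
    induction j, hij using Nat.le_induction with
    | base => intro _; exact le_rfl
    | succ j hj ih =>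
      intro hjr
      have := ih (by omega)
      have := hstep j hjr
      omega
  have hle : ∀ i < r, b i ≤ 10 ^ 83 := fun i hi => (hmono i (r - 1) (by omega) (by omega)).trans hcon
  set Q := b (r - 1) with hQdef
  have hQodd : Q % 2 = 1 := hodd _ (by omega)
  have hQ1 : 1 < Q := h1 _ (by omega)
  have hb0 := hodd 0 (by omega)
  obtain ⟨q, j, hq, hq4, hQ⟩ := prime_power hQodd hQ1 (by omega)
  have hφ : φ Q = q ^ j * (q - 1) := by rw [hQ, Nat.totient_prime_pow_succ hq]
  have hq3 : q ≠ 3 := by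
    rintro rfl
    rw [hφ, hQ] at h0
    have : 4 * b 0 = 8 * 3 ^ j := by rw [h0]; ring
    omega
  have hq7 : 7 ≤ q := by omega
  -- `4 q b_0 = (3 q - 1) Q`
  have hmain : 4 * q * b 0 + Q = 3 * q * Q := by
    have h2 : q * φ Q + Q = q * Q := by
      rw [hφ, hQ]
      obtain ⟨c, rfl⟩ : ∃ c, q = c + 1 := ⟨q - 1, by omega⟩
      simp only [Nat.add_sub_cancel]
      ring
    have h3 : q * (4 * b 0) = q * (2 * Q + φ Q) := by rw [h0]
    nlinarith
  have hQ3 : ¬ 3 ∣ Q := by
    intro h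
    rw [hQ] at h
    have := (Nat.prime_dvd_prime_iff_eq Nat.prime_three hq).1 (Nat.prime_three.dvd_of_dvd_pow h)
    exact hq3 this.symm
  have hb03 : ¬ 3 ∣ b 0 := by
    intro h
    apply hQ3
    have h2 : 3 ∣ 4 * q * b 0 := Dvd.dvd.mul_left h _
    have h3 : 3 ∣ 3 * q * Q := by rw [mul_assoc]; exact Dvd.intro _ rfl
    omega
  -- a step after the first one
  have hi : ∃ i, 1 ≤ i ∧ i + 1 < r ∧ 31 * b i ≤ 100 * φ (b i) := by
    by_cases h3 : 3 ∣ b 1
    · by_contra hno
      push Not at hno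
      have hall : ∀ i, 1 ≤ i → i < r → 3 ∣ b i := by
        intro i hi1
        induction i, hi1 using Nat.le_induction with
        | base => intro _; exact h3
        | succ i hi ih =>
          intro hir
          by_contra h3'
          have h4 := ih (by omega)
          have h5 := hstep i hir
          have h6 : ¬ 3 ∣ φ (b i) := by omega
          have h7 := lemB (by have := h1 i (by omega); omega) (hodd i (by omega)) h4 h6 (hle i (by omega))
          have h8 := hno i hi hir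
          omega
      exact hQ3 (hall (r - 1) (by omega) (by omega))
    · exact ⟨1, le_rfl, by omega, lemA (by have := h1 1 (by omega); omega) (hodd 1 (by omega)) h3
        (hle 1 (by omega))⟩
  obtain ⟨i, hi1, hir, hiφ⟩ := hi
  have h2 : 231 * b 1 ≤ 200 * Q := by
    have e1 := hmono 1 i hi1 (by omega)
    have e2 := hmono (i + 1) (r - 1) (by omega) (by omega)
    have e3 := hstep i hir
    omega
  have h3 := hstep 0 (by omega)
  rw [zero_add] at h3
  rcases Nat.lt_or_ge 1000 q with hbig | hsmall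
  · have h4 := lemA (by have := h1 0 (by omega); omega) hb0 hb03 (hle 0 (by omega))
    have h5 : 231 * b 0 ≤ 200 * b 1 := by omega
    have h6 : 231 * 231 * b 0 ≤ 40000 * Q := by omega
    nlinarith
  · have hrad : ∏ p ∈ (b 0).primeFactors, p ≤ 3000000 := by
      have hsub : (b 0).primeFactors ⊆ ((3 * q - 1) * q).primeFactors := by
        intro p hp
        have hp1 := Nat.prime_of_mem_primeFactors hp
        have hp2 := Nat.dvd_of_mem_primeFactors hp
        rw [Nat.mem_primeFactors]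
        refine ⟨hp1, ?_, Nat.mul_ne_zero (by omega) (by omega)⟩
        have h8 : 4 * q * b 0 = (3 * q - 1) * Q := by
          rw [Nat.sub_mul, one_mul]; omega
        have h9 : p ∣ (3 * q - 1) * Q := by rw [← h8]; exact Dvd.dvd.mul_left hp2 _
        rcases (Nat.Prime.dvd_mul hp1).1 h9 with h10 | h10
        · exact Dvd.dvd.mul_right h10 _
        · rw [hQ] at h10
          exact Dvd.dvd.mul_left (hp1.dvd_of_dvd_pow h10) _
      have h7 : ∏ p ∈ (b 0).primeFactors, p ≤ ∏ p ∈ ((3 * q - 1) * q).primeFactors, p :=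
        Finset.prod_le_prod_of_subset_of_one_le' hsub
          (fun p hp _ => (Nat.prime_of_mem_primeFactors hp).one_lt.le)
      have h8 : ∏ p ∈ ((3 * q - 1) * q).primeFactors, p ≤ (3 * q - 1) * q :=
        rad_le (Nat.mul_pos (by omega) (by omega))
      have h9 : (3 * q - 1) * q ≤ 3000 * 1000 := Nat.mul_le_mul (by omega) hsmall
      omega
    have h4 := lemA0 hb0 hb03 hrad
    have h5 : 243 * b 0 ≤ 200 * b 1 := by omega
    have h6 : 231 * 243 * b 0 ≤ 40000 * Q := by omega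
    nlinarith

/-! ### From the sequence to the cycle -/

lemma oddPart_eq {e u : ℕ} (hu : u % 2 = 1) : oddPart (2 ^ e * u) = u := by
  unfold oddPart
  have h0 : u ≠ 0 := by rintro rfl; simp at hu
  have h2 : u.factorization 2 = 0 := Nat.factorization_eq_zero_of_not_dvd (by omega)
  rw [Nat.factorization_mul (by positivity) h0, Nat.Prime.factorization_pow Nat.prime_two]
  simp [h2]

lemma tot_two_pow {e u : ℕ} (hu : u % 2 = 1) : φ (2 ^ (e + 1) * u) = 2 ^ e * φ u := by
  have hc : Nat.Coprime (2 ^ (e + 1)) u :=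
    Nat.Coprime.pow_left _ ((Nat.Prime.coprime_iff_not_dvd Nat.prime_two).2 (by omega))
  rw [Nat.totient_mul hc, Nat.totient_prime_pow_succ Nat.prime_two]
  simp

/-- the analysis of a sequence `a (k + 1) = g (a k)` with `a (k + r) = 2 a k` and `r ≥ 3` -/
lemma seq (r : ℕ) (hr : 3 ≤ r) (a : ℕ → ℕ) (ha0 : 0 < a 0) (hg : ∀ k, a (k + 1) = g (a k))
    (h2 : ∀ k, a (k + r) = 2 * a k) : ∃ b : ℕ → ℕ, (∀ i < r, b i % 2 = 1) ∧ (∀ i < r, 1 < b i) ∧
      (∀ i, i + 1 < r → 2 * b (i + 1) = 2 * b i + φ (b i)) ∧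
      4 * b 0 = 2 * b (r - 1) + φ (b (r - 1)) ∧ ∀ k, b 0 ≤ oddPart (a k) := by
  have hpos : ∀ k, 0 < a k := by
    intro k
    induction k with
    | zero => exact ha0
    | succ k ih => rw [hg]; unfold g; omega
  have hlt : StrictMono a := by
    apply strictMono_nat_of_lt_succ
    intro k
    rw [hg]; unfold g
    have := Nat.totient_pos.2 (hpos k)
    omega
  choose e u hu he using fun k => Nat.exists_eq_two_pow_mul_odd (hpos k).ne'
  have hu' : ∀ k, u k % 2 = 1 := fun k => Nat.odd_iff.1 (hu k)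
  have huo : ∀ k, oddPart (a k) = u k := by
    intro k
    rw [he k]; exact oddPart_eq (hu' k)
  have huniq : ∀ e1 u1 e2 u2 : ℕ, u1 % 2 = 1 → u2 % 2 = 1 → 2 ^ e1 * u1 = 2 ^ e2 * u2 →
      e1 = e2 ∧ u1 = u2 := by
    intro e1 u1 e2 u2 h1 h3 h
    have h4 : u1 = u2 := by rw [← oddPart_eq (e := e1) h1, h, oddPart_eq h3]
    subst h4
    have h5 : 2 ^ e1 = 2 ^ e2 := Nat.eq_of_mul_eq_mul_right (by omega) h
    exact ⟨Nat.pow_right_injective le_rfl h5, rfl⟩
  have hper : ∀ k, e (k + r) = e k + 1 ∧ u (k + r) = u k := by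
    intro k
    apply huniq _ _ _ _ (hu' _) (hu' _)
    rw [← he, h2, he k]
    ring
  have hper2 : ∀ t k, u (k + r * t) = u k := by
    intro t
    induction t with
    | zero => intro k; simp
    | succ t ih => intro k; rw [Nat.mul_succ, ← add_assoc, (hper _).2, ih]
  have he2 : ∀ k, 2 * r ≤ k → 2 ≤ e k := by
    intro k hk
    have h3 := (hper (k - r)).1
    have h4 := (hper (k - r - r)).1
    rw [show k - r - r + r = k - r by omega] at h4
    rw [show k - r + r = k by omega] at h3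
    omega
  -- no power of two
  have hu1 : ∀ k, 2 * r ≤ k → 1 < u k := by
    intro k hk
    by_contra hcon
    have h3 : u k = 1 := by have := hu' k; omega
    obtain ⟨m, hm⟩ : ∃ m, e k = m + 2 := ⟨e k - 2, by have := he2 k hk; omega⟩
    have h4 : a k = 2 ^ (m + 1 + 1) * 1 := by rw [he k, h3, hm]
    have h5 : a (k + 1) = 2 ^ (m + 1) * 3 := by
      rw [hg]
      unfold g
      rw [h4, tot_two_pow (by norm_num)]
      simp only [Nat.totient_one]
      ring
    have h6 : a (k + 2) = 2 * a k := by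
      rw [show k + 2 = (k + 1) + 1 by ring, hg (k + 1)]
      unfold g
      rw [h5, tot_two_pow (by norm_num), h4, Nat.totient_prime Nat.prime_three]
      ring
    have h7 : k + 2 = k + r := hlt.injective (by rw [h6, h2])
    omega
  -- the step
  have hstep : ∀ k, 2 * r ≤ k → ∃ h, φ (u k) = 2 * h ∧ a (k + 1) = 2 ^ e k * (u k + h) := by
    intro k hk
    have h3 := hu1 k hk
    have h4 : 2 < u k := by have := hu' k; omega
    obtain ⟨h, hh⟩ := (Nat.totient_even h4).two_dvd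
    refine ⟨h, hh, ?_⟩
    obtain ⟨m, hm⟩ : ∃ m, e k = m + 1 := ⟨e k - 1, by have := he2 k hk; omega⟩
    rw [hg]
    unfold g
    rw [he k, hm, tot_two_pow (hu' k), hh]
    ring
  have hemono1 : ∀ k, 2 * r ≤ k → e k ≤ e (k + 1) := by
    intro k hk
    obtain ⟨h, _, h3⟩ := hstep k hk
    rw [he (k + 1)] at h3
    have h4 : 2 ^ e k ∣ 2 ^ e (k + 1) * u (k + 1) := by rw [h3]; exact Dvd.intro _ rfl
    have hc : Nat.Coprime (2 ^ e k) (u (k + 1)) :=
      Nat.Coprime.pow_left _ ((Nat.Prime.coprime_iff_not_dvd Nat.prime_two).2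
        (by have := hu' (k + 1); omega))
    exact (Nat.pow_dvd_pow_iff_le_right (by norm_num)).1 (hc.dvd_of_dvd_mul_right h4)
  have hemono : ∀ k l, 2 * r ≤ k → k ≤ l → e k ≤ e l := by
    intro k l hk hkl
    induction l, hkl using Nat.le_induction with
    | base => exact le_rfl
    | succ l hl ih => exact ih.trans (hemono1 l (by omega))
  obtain ⟨k0, hk0, hjump⟩ : ∃ k0, 2 * r ≤ k0 ∧ e k0 < e (k0 + 1) := by
    by_contra hno
    push Not at hno
    have h3 : ∀ l, 2 * r ≤ l → e l ≤ e (2 * r) := by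
      intro l hl
      induction l, hl using Nat.le_induction with
      | base => exact le_rfl
      | succ l hl ih => exact (hno l hl).trans ih
    have h4 := h3 (2 * r + r) (by omega)
    have h5 := (hper (2 * r)).1
    omega
  have hE : ∀ j, k0 + 1 ≤ j → j ≤ k0 + r → e j = e k0 + 1 := by
    intro j hj1 hj2
    have h3 := hemono (k0 + 1) j (by omega) hj1
    have h4 := hemono j (k0 + r) (by omega) hj2
    have h5 := (hper k0).1
    omega
  have hk0e := he2 k0 hk0
  set b : ℕ → ℕ := fun i => u (k0 + 1 + i) with hb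
  have hbr : b (r - 1) = u k0 := by
    rw [hb]
    simp only
    rw [show k0 + 1 + (r - 1) = k0 + r by omega]
    exact (hper k0).2
  have hodd : ∀ i < r, b i % 2 = 1 := fun i _ => hu' _
  have hone : ∀ i < r, 1 < b i := fun i _ => hu1 _ (by omega)
  have hst : ∀ i, i + 1 < r → 2 * b (i + 1) = 2 * b i + φ (b i) := by
    intro i hi
    obtain ⟨h, h3, h4⟩ := hstep (k0 + 1 + i) (by omega)
    rw [he (k0 + 1 + i + 1), hE (k0 + 1 + i + 1) (by omega) (by omega),
      hE (k0 + 1 + i) (by omega) (by omega)] at h4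
    have h5 := Nat.eq_of_mul_eq_mul_left (Nat.pow_pos (by norm_num)) h4
    rw [hb]
    simp only
    rw [h3, show k0 + 1 + (i + 1) = k0 + 1 + i + 1 by ring, h5]
    ring
  have h0 : 4 * b 0 = 2 * b (r - 1) + φ (b (r - 1)) := by
    obtain ⟨h, h3, h4⟩ := hstep k0 hk0
    rw [he (k0 + 1), hE (k0 + 1) (by omega) (by omega), pow_succ, mul_assoc] at h4
    have h5 := Nat.eq_of_mul_eq_mul_left (Nat.pow_pos (by norm_num)) h4
    rw [hbr, h3]
    rw [hb]
    simp only [add_zero]
    omega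
  refine ⟨b, hodd, hone, hst, h0, ?_⟩
  have hwin : ∀ i < r, b 0 ≤ b i := by
    intro i
    induction i with
    | zero => intro _; exact le_rfl
    | succ i ih =>
      intro hi
      have h3 := ih (by omega)
      have h4 := hst i hi
      omega
  have hall : ∀ j, k0 + 1 ≤ j → b 0 ≤ u j := by
    intro j
    induction j using Nat.strong_induction_on with
    | _ j ih =>
      intro hj
      rcases Nat.lt_or_ge j (k0 + 1 + r) with h3 | h3
      · have h4 := hwin (j - (k0 + 1)) (by omega)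
        have h5 : b (j - (k0 + 1)) = u j := by
          rw [hb]
          simp only
          rw [show k0 + 1 + (j - (k0 + 1)) = j by omega]
        rwa [h5] at h4
      · have h4 := ih (j - r) (by omega) (by omega)
        have h5 := (hper (j - r)).2
        rw [show j - r + r = j by omega] at h5
        rwa [h5]
  intro k
  rw [huo, ← hper2 (k0 + 1) k]
  apply hall
  have : k0 + 1 ≤ r * (k0 + 1) := Nat.le_mul_of_pos_left _ (by omega)
  omega

/-- the number of steps -/
lemma growth (C : ℝ) (hC1 : 1 ≤ C) (hC : ∀ n : ℕ, 1 ≤ n →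
    (n : ℝ) / Nat.totient n ≤ C * (1 + Real.log (1 + Real.log n)))
    (r : ℕ) (hr : 3 ≤ r) (b : ℕ → ℕ) (hodd : ∀ i < r, b i % 2 = 1) (h1 : ∀ i < r, 1 < b i)
    (hstep : ∀ i, i + 1 < r → 2 * b (i + 1) = 2 * b i + φ (b i))
    (h0 : 4 * b 0 = 2 * b (r - 1) + φ (b (r - 1))) :
    Real.exp (Real.exp (1 / (10 * C) * r)) < b 0 := by
  have hQ := core r hr b hodd h1 hstep h0
  have hmono : ∀ i j, i ≤ j → j < r → b i ≤ b j := by
    intro i j hij
    induction j, hij using Nat.le_induction with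
    | base => intro _; exact le_rfl
    | succ j hj ih =>
      intro hjr
      have := ih (by omega)
      have := hstep j hjr
      omega
  set Q := b (r - 1) with hQdef
  have hQ2 : Q ≤ 2 * b 0 := by omega
  have hQR : (10 : ℝ) ^ 83 < Q := by exact_mod_cast hQ
  have hQ0 : (0 : ℝ) < Q := lt_trans (by positivity) hQR
  set L := Real.log Q with hL
  have hL8 : (8 : ℝ) < L := by
    rw [hL, Real.lt_log_iff_exp_lt hQ0]
    refine lt_trans ?_ hQR
    have h2 : Real.exp 8 = Real.exp 1 ^ 8 := by rw [← Real.exp_nat_mul]; norm_num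
    have h3 := Real.exp_one_lt_d9
    have h4 : Real.exp 1 ^ 8 ≤ 3 ^ 8 := pow_le_pow_left₀ (Real.exp_pos 1).le (by linarith) 8
    rw [h2]
    refine lt_of_le_of_lt h4 ?_
    norm_num
  set M := C * (1 + Real.log (1 + L)) with hM
  have hlog1 : 2 < Real.log (1 + L) := by
    rw [Real.lt_log_iff_exp_lt (by linarith)]
    have h2 : Real.exp 2 = Real.exp 1 ^ 2 := by rw [← Real.exp_nat_mul]; norm_num
    have h3 := Real.exp_one_lt_d9
    have h5 := Real.exp_pos 1
    rw [h2]
    nlinarith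
  have hM0 : 0 < M := by positivity
  have hb0 : (0 : ℝ) < b 0 := by
    have := h1 0 (by omega)
    exact_mod_cast (by omega : 0 < b 0)
  have hstepR : ∀ i, i + 1 < r → (b i : ℝ) + b 0 / (2 * M) ≤ b (i + 1) := by
    intro i hi
    have h2 := h1 i (by omega)
    have h3 := hC (b i) (by omega)
    have h4 : (0 : ℝ) < φ (b i) := by exact_mod_cast Nat.totient_pos.2 (by omega)
    have h5 : (b i : ℝ) ≤ Q := by exact_mod_cast hmono i (r - 1) (by omega) (by omega)
    have h6 : (0 : ℝ) < b i := by exact_mod_cast (by omega : 0 < b i)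
    have h7 : Real.log (b i) ≤ L := Real.log_le_log h6 h5
    have h8 : 0 ≤ Real.log (b i) := Real.log_natCast_nonneg _
    have h9 : C * (1 + Real.log (1 + Real.log (b i))) ≤ M := by
      apply mul_le_mul_of_nonneg_left _ (by linarith)
      have := Real.log_le_log (by linarith : 0 < 1 + Real.log (b i)) (by linarith : 1 + Real.log (b i) ≤ 1 + L)
      linarith
    have h10 : (b i : ℝ) ≤ M * φ (b i) := by
      have := h3.trans h9
      rwa [div_le_iff₀ h4] at this
    have h11 : (b 0 : ℝ) ≤ b i := by exact_mod_cast hmono 0 i (by omega) (by omega)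
    have h12 : (b 0 : ℝ) / (2 * M) ≤ φ (b i) / 2 := by
      rw [div_le_div_iff₀ (by positivity) (by norm_num)]
      nlinarith
    have h13 : (2 : ℝ) * b (i + 1) = 2 * b i + φ (b i) := by exact_mod_cast hstep i hi
    linarith
  have hind : ∀ i, i < r → (b 0 : ℝ) + i * (b 0 / (2 * M)) ≤ b i := by
    intro i
    induction i with
    | zero => intro _; simp
    | succ i ih =>
      intro hi
      have h2 := ih (by omega)
      have h3 := hstepR i hi
      push_cast
      linarith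
  have h2 := hind (r - 1) (by omega)
  have h3 : (Q : ℝ) ≤ 2 * b 0 := by exact_mod_cast hQ2
  have hr1 : ((r - 1 : ℕ) : ℝ) = r - 1 := by
    rw [Nat.cast_sub (by omega)]; norm_num
  rw [hr1] at h2
  have hr3 : (3 : ℝ) ≤ r := by exact_mod_cast hr
  have h4 : (r - 1 : ℝ) * (b 0 / (2 * M)) ≤ b 0 := by linarith
  have h5 : (r - 1 : ℝ) ≤ 2 * M := by
    have h6 : (r - 1 : ℝ) * (b 0 / (2 * M)) = (r - 1 : ℝ) / (2 * M) * b 0 := by ring
    rw [h6] at h4
    have h7 : (r - 1 : ℝ) / (2 * M) ≤ 1 := by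
      by_contra hcon
      push Not at hcon
      nlinarith
    rwa [div_le_one (by positivity)] at h7
  -- `log (1 + L) > 2 r / (9 C)`
  have hC0 : 0 < C := by linarith
  have h6 : (r : ℝ) ≤ 9 / 2 * C * Real.log (1 + L) := by
    rw [hM] at h5
    nlinarith
  have hlb : (1 + L) / 2 ≤ Real.log (b 0) := by
    have h7 : L ≤ Real.log (2 * b 0) := Real.log_le_log hQ0 h3
    rw [Real.log_mul (by norm_num) hb0.ne'] at h7
    have := Real.log_two_lt_d9
    linarith
  rw [← Real.lt_log_iff_exp_lt hb0]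
  refine lt_of_lt_of_le ?_ hlb
  rw [← Real.lt_log_iff_exp_lt (by linarith), Real.log_div (by linarith) (by norm_num)]
  have h8 : Real.log 2 < 1 := by have := Real.log_two_lt_d9; linarith
  have h9 : 1 / (10 * C) * r ≤ 9 / 20 * Real.log (1 + L) := by
    rw [div_mul_eq_mul_div, one_mul, div_le_iff₀ (by positivity)]
    nlinarith
  have h10 : 9 / 20 * Real.log (1 + L) < Real.log (1 + L) - Real.log 2 := by
    have h11 : Real.log 2 < 11 / 20 * Real.log (1 + L) := by linarith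
    linarith
  exact lt_of_le_of_lt h9 h10

/-- Suppose that `g_{k+r}(n) = 2 g_k(n)` for all `k ≥ K`.  Then `r = 2`, or `r ≥ 3` and the odd parts
of all `g_k(n)`, `k ≥ K`, are larger than `10 ^ 82` and than `exp (exp (c r))`. -/
theorem result : ∃ c : ℝ, 0 < c ∧ ∀ n r K : ℕ, 0 < n → 0 < r →
    (∀ k ≥ K, g^[k + r] n = 2 * g^[k] n) →
    r = 2 ∨ (3 ≤ r ∧ ∀ k ≥ K, 10 ^ 82 < oddPart (g^[k] n) ∧
      Real.exp (Real.exp (c * r)) < oddPart (g^[k] n)) := by
  obtain ⟨C, hC1, hC⟩ := Pool.Agent.H95R2.Leh.tot_lower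
  refine ⟨1 / (10 * C), by positivity, ?_⟩
  intro n r K hn hr h
  have hpos : ∀ k, 0 < g^[k] n := by
    intro k
    induction k with
    | zero => simpa using hn
    | succ k ih => rw [Function.iterate_succ_apply']; unfold g at *; omega
  rcases Nat.lt_trichotomy r 2 with h1 | h1 | h1
  · exfalso
    have h1' : r = 1 := by omega
    subst h1'
    have h2 := h K le_rfl
    have h3 := h (K + 1) (by omega)
    rw [Function.iterate_succ_apply' g K] at h2
    rw [Function.iterate_succ_apply' g (K + 1), Function.iterate_succ_apply' g K] at h3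
    have h4 := hpos K
    generalize g^[K] n = x at *
    rw [h2] at h3
    unfold g at h2 h3
    have h5 : φ x = x := by omega
    have h6 : x = 1 := by
      by_contra hne
      have := Nat.totient_lt x (by omega)
      omega
    subst h6
    simp at h3
  · exact Or.inl h1
  · right
    refine ⟨h1, ?_⟩
    obtain ⟨b, hb1, hb2, hb3, hb4, hb5⟩ := seq r h1 (fun k => g^[K + k] n) (hpos _)
      (fun k => by rw [← add_assoc, Function.iterate_succ_apply'])
      (fun k => by
        have := h (K + k) (by omega)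
        rw [add_assoc] at this
        exact this)
    have hcore := core r h1 b hb1 hb2 hb3 hb4
    have hgrow := growth C hC1 hC r h1 b hb1 hb2 hb3 hb4
    intro k hk
    have h3 := hb5 (k - K)
    rw [show K + (k - K) = k by omega] at h3
    refine ⟨by omega, lt_of_lt_of_le hgrow ?_⟩
    exact_mod_cast h3

end Pool.Agent.Results.MP_df8f2d_nt.AtLeastThreeSteps
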