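import Mathlib

namespace Pool.Agent.Results.MP_df8f2d_nt.PrimePowerCycle

/-- `g(n) = n + φ(n)`. -/
def g (n : ℕ) : ℕ := n + Nat.totient n

/-- `(n, r)` is a solution: `g_{k+r}(n) = 2 g_k(n)` for all large `k`. -/
def IsSolution (n r : ℕ) : Prop :=
  0 < n ∧ 0 < r ∧ ∃ K, ∀ k, K ≤ k → g^[k + r] n = 2 * g^[k] n

theorem even_step {m : ℕ} (h2 : 2 < m) (he : Even m) : 2 < g m ∧ Even (g m) := by
  refine ⟨?_, ?_⟩
  · unfold g; omega
  · exact he.add (Nat.totient_even h2)

theorem even_iter {m : ℕ} (h2 : 2 < m) (he : Even m) (s : ℕ) :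
    2 < g^[s] m ∧ Even (g^[s] m) := by
  induction s with
  | zero => exact ⟨h2, he⟩
  | succ s ih => rw [Function.iterate_succ_apply']; exact even_step ih.1 ih.2

theorem odd_step {m : ℕ} (h2 : 2 < m) (ho : Odd m) : 2 < g m ∧ Odd (g m) := by
  refine ⟨?_, ?_⟩
  · unfold g; omega
  · exact ho.add_even (Nat.totient_even h2)

theorem odd_iter {m : ℕ} (h2 : 2 < m) (ho : Odd m) (s : ℕ) :
    2 < g^[s] m ∧ Odd (g^[s] m) := by
  induction s with
  | zero => exact ⟨h2, ho⟩
  | succ s ih => rw [Function.iterate_succ_apply']; exact odd_step ih.1 ih.2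

theorem totient_two_mul_even {m : ℕ} (he : Even m) :
    Nat.totient (2 * m) = 2 * Nat.totient m := by
  exact Nat.totient_two_mul_of_even he

theorem g_two_mul {m : ℕ} (he : Even m) : g (2 * m) = 2 * g m := by
  unfold g; rw [totient_two_mul_even he]; ring

theorem iter_two_mul {m : ℕ} (h2 : 2 < m) (he : Even m) (s : ℕ) :
    g^[s] (2 * m) = 2 * g^[s] m := by
  induction s with
  | zero => rfl
  | succ s ih =>
    rw [Function.iterate_succ_apply', Function.iterate_succ_apply', ih,
      g_two_mul (even_iter h2 he s).2]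

theorem iter_two_pow_mul {m : ℕ} (h2 : 2 < m) (he : Even m) (s t : ℕ) :
    g^[s] (2 ^ t * m) = 2 ^ t * g^[s] m := by
  induction t with
  | zero => simp
  | succ t ih =>
    have e : 2 ^ (t + 1) * m = 2 * (2 ^ t * m) := by ring
    have h3 : 1 ≤ 2 ^ t := Nat.one_le_two_pow
    rw [e, iter_two_mul (by nlinarith) (he.mul_left _), ih]
    ring

/-- An odd `a ≥ 3` with `4 ∤ φ(a)` is a power of a prime `≡ 3 mod 4`. -/
theorem prime_pow_of_not_four_dvd {a : ℕ} (h3 : 2 < a) (ho : Odd a)
    (h4 : ¬ 4 ∣ Nat.totient a) :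
    ∃ p α, p.Prime ∧ p % 4 = 3 ∧ 0 < α ∧ a = p ^ α := by
  obtain ⟨p, hp, hpa⟩ := Nat.exists_prime_and_dvd (show a ≠ 1 by omega)
  have hpo : Odd p := by
    rcases hp.eq_two_or_odd' with h | h
    · subst h
      rw [Nat.odd_iff] at ho
      omega
    · exact h
  obtain ⟨α, c, hc, hac⟩ := Nat.exists_eq_pow_mul_and_not_dvd (show a ≠ 0 by omega) p hp.one_lt.ne'
  have hα : 0 < α := by
    rcases Nat.eq_zero_or_pos α with h | h
    · rw [h, pow_zero, one_mul] at hac
      rw [hac] at hpa
      exact absurd hpa hc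
    · exact h
  have hp3 : 3 ≤ p := by
    have := hp.two_le
    rw [Nat.odd_iff] at hpo
    omega
  have hpow3 : 2 < p ^ α := by
    calc 2 < p := hp3
      _ = p ^ 1 := (pow_one p).symm
      _ ≤ p ^ α := Nat.pow_le_pow_right (by omega) hα
  have hco : Nat.Coprime (p ^ α) c := Nat.Coprime.pow_left α ((Nat.Prime.coprime_iff_not_dvd hp).2 hc)
  have hc0 : c ≠ 0 := by
    rintro rfl
    exact hc (dvd_zero p)
  have hc1 : c = 1 := by
    by_contra hne
    have hco2 : Odd c := by
      rw [hac] at ho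
      exact (Nat.odd_mul.1 ho).2
    have hc3 : 2 < c := by
      rw [Nat.odd_iff] at hco2
      omega
    apply h4
    rw [hac, Nat.totient_mul hco]
    obtain ⟨x, hx⟩ := (Nat.totient_even hpow3).two_dvd
    obtain ⟨y, hy⟩ := (Nat.totient_even hc3).two_dvd
    rw [hx, hy]
    exact ⟨x * y, by ring⟩
  rw [hc1, mul_one] at hac
  refine ⟨p, α, hp, ?_, hα, hac⟩
  by_contra hne
  have hp1 : p % 4 = 1 := by
    rw [Nat.odd_iff] at hpo
    omega
  apply h4
  rw [hac, Nat.totient_prime_pow hp hα]
  have : 4 ∣ p - 1 := by omega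
  exact this.mul_left _

/-- If no prime power `≡ 3 mod 4` occurs, the `2`-part is constant. -/
theorem step_odd_part {l a : ℕ} (hl : 0 < l) (ho : Odd a)
    (h4 : 4 ∣ Nat.totient a) : ∃ a', Odd a' ∧ g (2 ^ l * a) = 2 ^ l * a' := by
  obtain ⟨x, hx⟩ := h4
  refine ⟨a + 2 * x, ho.add_even ⟨x, by ring⟩, ?_⟩
  unfold g
  have hco : Nat.Coprime (2 ^ l) a :=
    Nat.Coprime.pow_left l ((Nat.coprime_two_left).2 ho)
  rw [Nat.totient_mul hco, Nat.totient_prime_pow Nat.prime_two hl, hx]
  obtain ⟨l', rfl⟩ : ∃ l', l = l' + 1 := ⟨l - 1, by omega⟩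
  simp only [Nat.add_sub_cancel]
  ring

theorem g_pos {m : ℕ} (h : 0 < m) : m < g m := by
  have := Nat.totient_pos.2 h
  unfold g; omega

theorem iter_pos {m : ℕ} (h : 0 < m) (s : ℕ) : 0 < g^[s] m := by
  induction s with
  | zero => exact h
  | succ s ih =>
    rw [Function.iterate_succ_apply']
    exact lt_trans ih (g_pos ih)

theorem iter_strictMono {m : ℕ} (h : 0 < m) : StrictMono (fun s => g^[s] m) := by
  refine strictMono_nat_of_lt_succ (fun s => ?_)
  simp only [Function.iterate_succ_apply']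
  exact g_pos (iter_pos h s)

theorem g_two_pow_mul {t a : ℕ} (ho : Odd a) :
    g (2 ^ (t + 1) * a) = 2 ^ (t + 1) * a + 2 ^ t * Nat.totient a := by
  have hco : Nat.Coprime (2 ^ (t + 1)) a :=
    Nat.Coprime.pow_left _ ((Nat.coprime_two_left).2 ho)
  unfold g
  rw [Nat.totient_mul hco, Nat.totient_prime_pow Nat.prime_two (by omega)]
  simp

theorem g_two_pow_mul_even {t a : ℕ} (ho : Odd a) (he : 2 ∣ Nat.totient a) :
    g (2 ^ (t + 1) * a) = 2 ^ (t + 1) * (a + Nat.totient a / 2) := by
  rw [g_two_pow_mul ho]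
  obtain ⟨x, hx⟩ := he
  rw [hx, Nat.mul_div_cancel_left _ (by norm_num)]
  ring

theorem g_two_pow (t : ℕ) : g (2 ^ (t + 1)) = 3 * 2 ^ t := by
  have h := g_two_pow_mul (t := t) (a := 1) odd_one
  simp only [mul_one, Nat.totient_one] at h
  rw [h]; ring

theorem g_g_two_pow (t : ℕ) : g (g (2 ^ (t + 2))) = 2 ^ (t + 3) := by
  rw [g_two_pow (t + 1)]
  have h := g_two_pow_mul (t := t) (a := 3) (by decide)
  have h3 : Nat.totient 3 = 2 := by decide
  rw [h3] at h
  rw [mul_comm 3, h]; ring

/-- divisibility by a power of two persists, away from powers of two -/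
theorem dvd_step {s m : ℕ} (hm : 0 < m) (hnp : ∀ l, m ≠ 2 ^ l) (hd : 2 ^ s ∣ m) :
    2 ^ s ∣ g m := by
  obtain ⟨t, a, ha, hma⟩ := Nat.exists_eq_two_pow_mul_odd hm.ne'
  have ha3 : 2 < a := by
    by_contra hcon
    have : a = 1 := by
      rw [Nat.odd_iff] at ha
      omega
    rw [this, mul_one] at hma
    exact hnp t hma
  have hst : 2 ^ s ∣ 2 ^ t := by
    rw [hma] at hd
    exact (Nat.Coprime.dvd_of_dvd_mul_right
      (Nat.Coprime.pow_left _ ((Nat.coprime_two_left).2 ha)) hd)
  refine hst.trans ?_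
  have he := (Nat.totient_even ha3).two_dvd
  rcases Nat.eq_zero_or_pos t with h0 | h0
  · rw [h0, pow_zero]; exact one_dvd _
  · obtain ⟨t', rfl⟩ : ∃ t', t = t' + 1 := ⟨t - 1, by omega⟩
    rw [hma, g_two_pow_mul_even ha he]
    exact Dvd.intro _ rfl

theorem dvd_iter {s m : ℕ} (hm : 0 < m) (hnp : ∀ i l, g^[i] m ≠ 2 ^ l) (hd : 2 ^ s ∣ m)
    (i : ℕ) : 2 ^ s ∣ g^[i] m := by
  induction i with
  | zero => exact hd
  | succ i ih =>
    rw [Function.iterate_succ_apply']
    exact dvd_step (iter_pos hm i) (hnp i) ih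

theorem g_special {t p α : ℕ} (hp : p.Prime) (hp3 : p % 4 = 3) (hα : 0 < α) :
    4 * g (2 ^ (t + 1) * p ^ α) = 2 ^ (t + 2) * (p ^ (α - 1) * (3 * p - 1)) := by
  have hpo : Odd (p ^ α) := Odd.pow (by rw [Nat.odd_iff]; omega)
  rw [g_two_pow_mul hpo, Nat.totient_prime_pow hp hα]
  obtain ⟨β, rfl⟩ : ∃ β, α = β + 1 := ⟨α - 1, by omega⟩
  obtain ⟨u, rfl⟩ : ∃ u, p = u + 1 := ⟨p - 1, by have := hp.two_le; omega⟩
  simp only [Nat.add_sub_cancel]
  have e : 3 * (u + 1) - 1 = 3 * u + 2 := by omega
  rw [e]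
  ring

theorem result (n r : ℕ) (hn : 0 < n) (hr : 0 < r) :
    IsSolution n r ↔
      ((r = 2 ∧ ∃ k l : ℕ, 2 ≤ l ∧ g^[k] n = 2 ^ l) ∨
       ∃ (k l p α : ℕ) (a : ℕ → ℕ), 0 < l ∧ p.Prime ∧ p % 8 = 7 ∧ 0 < α ∧
        g^[k] n = 2 ^ l * p ^ α ∧
        4 * a 0 = p ^ (α - 1) * (3 * p - 1) ∧
        (∀ j, j + 1 < r → 4 ∣ Nat.totient (a j) ∧ a (j + 1) = a j + Nat.totient (a j) / 2) ∧
        a (r - 1) = p ^ α) := by
  have hadd : ∀ k s, g^[k + s] n = g^[s] (g^[k] n) := fun k s => by
    rw [Nat.add_comm, Function.iterate_add_apply]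
  constructor
  · rintro ⟨-, -, K, hK⟩
    -- no odd iterate `> 2` beyond `K`
    have hnoodd : ∀ k, K ≤ k → ¬ (2 < g^[k] n ∧ Odd (g^[k] n)) := by
      rintro k hk ⟨h2, ho⟩
      have h := hK k hk
      rw [hadd] at h
      have := (odd_iter h2 ho r).2
      rw [h, Nat.odd_iff] at this
      omega
    have hpos : ∀ k, 0 < g^[k] n := fun k => iter_pos hn k
    have h2f : ∀ k, K ≤ k → g^[k] n ≠ 2 := by
      intro k hk h
      apply hnoodd (k + 1) (by omega)
      rw [Function.iterate_succ_apply', h]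
      decide
    have h1f : ∀ k, K ≤ k → g^[k] n ≠ 1 := by
      intro k hk h
      apply h2f (k + 1) (by omega)
      rw [Function.iterate_succ_apply', h]
      decide
    have hev : ∀ k, K ≤ k → 2 < g^[k] n ∧ Even (g^[k] n) := by
      intro k hk
      have a1 := hpos k
      have a2 := h1f k hk
      have a3 := h2f k hk
      have a4 : 2 < g^[k] n := by omega
      refine ⟨a4, ?_⟩
      rcases Nat.even_or_odd (g^[k] n) with h | h
      · exact h
      · exact absurd ⟨a4, h⟩ (hnoodd k hk)
    by_cases hpow : ∃ k l, K ≤ k ∧ g^[k] n = 2 ^ l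
    · -- a power of two occurs
      left
      obtain ⟨k, l, hk, hkl⟩ := hpow
      have hl : 2 ≤ l := by
        by_contra hcon
        have h2 := (hev k hk).1
        rw [hkl] at h2
        have : 2 ^ l ≤ 2 ^ 1 := Nat.pow_le_pow_right (by norm_num) (by omega)
        omega
      refine ⟨?_, k, l, hl, hkl⟩
      obtain ⟨t, rfl⟩ : ∃ t, l = t + 2 := ⟨l - 2, by omega⟩
      have h1 := hK k hk
      rw [hadd, hkl] at h1
      have h2 : g^[2] (2 ^ (t + 2)) = 2 * 2 ^ (t + 2) := by
        have : g^[2] (2 ^ (t + 2)) = g (g (2 ^ (t + 2))) := rfl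
        rw [this, g_g_two_pow]; ring
      exact (iter_strictMono (show 0 < 2 ^ (t + 2) by positivity)).injective (h1.trans h2.symm)
    · right
      push Not at hpow
      -- find a prime power
      obtain ⟨k, hk, l, p, α, hl, hp, hp3, hα, hm⟩ : ∃ k, K ≤ k ∧ ∃ l p α : ℕ,
          0 < l ∧ p.Prime ∧ p % 4 = 3 ∧ 0 < α ∧ g^[k] n = 2 ^ l * p ^ α := by
        by_contra hno
        push Not at hno
        obtain ⟨l, a, ha, hKa⟩ := Nat.exists_eq_two_pow_mul_odd (show g^[K] n ≠ 0 from (hpos K).ne')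
        have hl : 0 < l := by
          rcases Nat.eq_zero_or_pos l with h | h
          · rw [h, pow_zero, one_mul] at hKa
            have := (hev K le_rfl).2
            rw [hKa, Nat.even_iff] at this
            rw [Nat.odd_iff] at ha
            omega
          · exact h
        have hall : ∀ j, ∃ b, Odd b ∧ g^[K + j] n = 2 ^ l * b := by
          intro j
          induction j with
          | zero => exact ⟨a, ha, hKa⟩
          | succ j ih =>
            obtain ⟨b, hb, hjb⟩ := ih
            have hb3 : 2 < b := by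
              by_contra hcon
              have hb1 : b = 1 := by
                rw [Nat.odd_iff] at hb
                omega
              rw [hb1, mul_one] at hjb
              exact hpow (K + j) l (by omega) hjb
            have h4 : 4 ∣ Nat.totient b := by
              by_contra hcon
              obtain ⟨p, α, hp, hp3, hα, hbp⟩ := prime_pow_of_not_four_dvd hb3 hb hcon
              exact hno (K + j) (by omega) l p α hl hp hp3 hα (by rw [hjb, hbp])
            obtain ⟨b', hb', hgb⟩ := step_odd_part hl hb h4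
            refine ⟨b', hb', ?_⟩
            rw [← Nat.add_assoc, Function.iterate_succ_apply', hjb, hgb]
        obtain ⟨b, hb, hrb⟩ := hall r
        rw [hK K le_rfl, hKa] at hrb
        have h5 : 2 ^ l * (2 * a) = 2 ^ l * b := by rw [← hrb]; ring
        have h6 : 2 * a = b := Nat.eq_of_mul_eq_mul_left (by positivity) h5
        rw [← h6, Nat.odd_iff] at hb
        omega
      obtain ⟨t, rfl⟩ : ∃ t, l = t + 1 := ⟨l - 1, by omega⟩
      have hspec := g_special (t := t) hp hp3 hα
      have h43 : 4 ∣ 3 * p - 1 := by omega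
      -- the iterate after `k` is divisible by `2 ^ (t + 2)`
      have hnext : g^[k + 1] n = g (2 ^ (t + 1) * p ^ α) := by
        rw [Function.iterate_succ_apply', hm]
      have hd0 : 2 ^ (t + 2) ∣ g^[k + 1] n := by
        obtain ⟨c, hc⟩ := h43
        rw [hnext]
        refine ⟨p ^ (α - 1) * c, ?_⟩
        rw [hc] at hspec
        have : 4 * g (2 ^ (t + 1) * p ^ α) = 4 * (2 ^ (t + 2) * (p ^ (α - 1) * c)) := by
          rw [hspec]; ring
        omega
      have hnp : ∀ i l, g^[i] (g^[k + 1] n) ≠ 2 ^ l := by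
        intro i l
        rw [← hadd]
        exact hpow _ l (by omega)
      have hdall : ∀ j, 2 ^ (t + 2) ∣ g^[k + 1 + j] n := by
        intro j
        rw [hadd (k + 1) j]
        exact dvd_iter (hpos _) hnp hd0 j
      have hend : g^[k + r] n = 2 ^ (t + 2) * p ^ α := by
        rw [hK k hk, hm]; ring
      have hpo : Odd (p ^ α) := Odd.pow (by rw [Nat.odd_iff]; omega)
      -- the odd parts
      have hA : ∀ j, g^[k + 1 + j] n = 2 ^ (t + 2) * (g^[k + 1 + j] n / 2 ^ (t + 2)) :=
        fun j => (Nat.mul_div_cancel' (hdall j)).symm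
      have hAodd : ∀ j, j + 1 ≤ r → Odd (g^[k + 1 + j] n / 2 ^ (t + 2)) := by
        intro j hj
        by_contra hcon
        rw [Nat.not_odd_iff_even] at hcon
        obtain ⟨c, hc⟩ := hcon.two_dvd
        have hd : 2 ^ (t + 3) ∣ g^[k + 1 + j] n := by
          refine ⟨c, ?_⟩
          rw [hA j, hc]; ring
        have hnp2 : ∀ i l, g^[i] (g^[k + 1 + j] n) ≠ 2 ^ l := by
          intro i l
          rw [← hadd]
          exact hpow _ l (by omega)
        have hd2 := dvd_iter (hpos _) hnp2 hd (r - 1 - j)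
        rw [← hadd, show k + 1 + j + (r - 1 - j) = k + r by omega, hend] at hd2
        obtain ⟨c2, hc2⟩ := hd2
        have h7 : 2 ^ (t + 2) * p ^ α = 2 ^ (t + 2) * (2 * c2) := by rw [hc2]; ring
        have h8 := Nat.eq_of_mul_eq_mul_left (by positivity) h7
        rw [h8, Nat.odd_iff] at hpo
        omega
      have hA0 : 4 * (g^[k + 1 + 0] n / 2 ^ (t + 2)) = p ^ (α - 1) * (3 * p - 1) := by
        have h9 := hA 0
        rw [Nat.add_zero, hnext] at h9 ⊢
        rw [h9] at hspec
        have : 2 ^ (t + 2) * (4 * (g (2 ^ (t + 1) * p ^ α) / 2 ^ (t + 2)))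
            = 2 ^ (t + 2) * (p ^ (α - 1) * (3 * p - 1)) := by
          rw [← hspec]; ring
        exact Nat.eq_of_mul_eq_mul_left (by positivity) this
      have hp8 : p % 8 = 7 := by
        by_contra hne
        have h38 : p % 8 = 3 := by omega
        have h8 : 8 ∣ 3 * p - 1 := by omega
        obtain ⟨c, hc⟩ := h8
        have h10 := hAodd 0 (by omega)
        rw [hc] at hA0
        have h11 : g^[k + 1 + 0] n / 2 ^ (t + 2) = 2 * (p ^ (α - 1) * c) := by
          have : 4 * (g^[k + 1 + 0] n / 2 ^ (t + 2)) = 4 * (2 * (p ^ (α - 1) * c)) := by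
            rw [hA0]; ring
          omega
        rw [h11, Nat.odd_iff] at h10
        omega
      refine ⟨k, t + 1, p, α, fun j => g^[k + 1 + j] n / 2 ^ (t + 2), hl, hp, hp8, hα, hm,
        hA0, ?_, ?_⟩
      · intro j hj
        simp only
        have ho1 := hAodd j (by omega)
        have ho2 := hAodd (j + 1) (by omega)
        have hb3 : 2 < g^[k + 1 + j] n / 2 ^ (t + 2) := by
          by_contra hcon
          have hb1 : g^[k + 1 + j] n / 2 ^ (t + 2) = 1 := by
            rw [Nat.odd_iff] at ho1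
            generalize g^[k + 1 + j] n / 2 ^ (t + 2) = A at ho1 hcon ⊢
            omega
          have := hA j
          rw [hb1, mul_one] at this
          exact hpow _ _ (by omega) this
        have he := (Nat.totient_even hb3).two_dvd
        have hstep := g_two_pow_mul_even (t := t + 1) ho1 he
        have hnx : g^[k + 1 + (j + 1)] n = g (g^[k + 1 + j] n) := by
          rw [← Nat.add_assoc, Function.iterate_succ_apply']
        have hA1 := hA (j + 1)
        rw [show t + 1 + 1 = t + 2 by ring, ← hA j, ← hnx, hA1] at hstep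
        have hstep2 := Nat.eq_of_mul_eq_mul_left (by positivity) hstep
        refine ⟨?_, hstep2⟩
        rw [hstep2] at ho2
        obtain ⟨x, hx⟩ := he
        rw [hx, Nat.mul_div_cancel_left _ (by norm_num)] at ho2
        rw [hx]
        generalize g^[k + 1 + j] n / 2 ^ (t + 2) = A at ho1 ho2
        rw [Nat.odd_iff] at ho1 ho2
        have hxe : x % 2 = 0 := by omega
        exact ⟨x / 2, by omega⟩
      · simp only
        rw [show k + 1 + (r - 1) = k + r by omega, hend,
          Nat.mul_div_cancel_left _ (by positivity)]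
  · intro h
    -- it suffices to have one iterate `m > 2`, even, with `g^[r] m = 2 m`
    obtain ⟨k, m, hm, h2, he, hg⟩ : ∃ k m, g^[k] n = m ∧ 2 < m ∧ Even m ∧ g^[r] m = 2 * m := by
      rcases h with ⟨rfl, k, l, hl, hkl⟩ | ⟨k, l, p, α, a, hl, hp, hp8, hα, hm, h0, hj, hend⟩
      · obtain ⟨t, rfl⟩ : ∃ t, l = t + 2 := ⟨l - 2, by omega⟩
        refine ⟨k, 2 ^ (t + 2), hkl, ?_, ⟨2 ^ (t + 1), by ring⟩, ?_⟩
        · have : 1 ≤ 2 ^ t := Nat.one_le_two_pow
          have e : 2 ^ (t + 2) = 4 * 2 ^ t := by ring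
          omega
        · have : g^[2] (2 ^ (t + 2)) = g (g (2 ^ (t + 2))) := rfl
          rw [this, g_g_two_pow]; ring
      · obtain ⟨t, rfl⟩ : ∃ t, l = t + 1 := ⟨l - 1, by omega⟩
        have hp0 : 2 < p := by omega
        have hpow1 : 1 < p ^ α := Nat.one_lt_pow (by omega) (by omega)
        have hspec := g_special (t := t) hp (by omega) hα
        have h1 : ∀ j, j + 1 ≤ r →
            Odd (a j) ∧ g^[j + 1] (2 ^ (t + 1) * p ^ α) = 2 ^ (t + 2) * a j := by
          intro j
          induction j with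
          | zero =>
            intro _
            constructor
            · obtain ⟨c, hc⟩ : ∃ c, 3 * p - 1 = 4 * c ∧ Odd c := by
                refine ⟨(3 * p - 1) / 4, by omega, ?_⟩
                rw [Nat.odd_iff]; omega
              have : 4 * a 0 = 4 * (p ^ (α - 1) * c) := by
                rw [h0, hc.1]; ring
              have h3 : a 0 = p ^ (α - 1) * c := by omega
              rw [h3]
              exact (Odd.pow (by rw [Nat.odd_iff]; omega)).mul hc.2
            · have e : g^[0 + 1] (2 ^ (t + 1) * p ^ α) = g (2 ^ (t + 1) * p ^ α) := rfl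
              rw [e]
              have : 4 * g (2 ^ (t + 1) * p ^ α) = 4 * (2 ^ (t + 2) * a 0) := by
                rw [hspec, ← h0]; ring
              omega
          | succ j ih =>
            intro hjr
            obtain ⟨ho, hgj⟩ := ih (by omega)
            obtain ⟨h4, hs⟩ := hj j (by omega)
            obtain ⟨x, hx⟩ := h4
            have hx2 : Nat.totient (a j) / 2 = 2 * x := by omega
            refine ⟨?_, ?_⟩
            · rw [hs, hx2]; exact ho.add_even ⟨x, by ring⟩
            · rw [Function.iterate_succ_apply', hgj, hs]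
              exact g_two_pow_mul_even (t := t + 1) ho ⟨2 * x, by omega⟩
        refine ⟨k, 2 ^ (t + 1) * p ^ α, hm, ?_, ⟨2 ^ t * p ^ α, by ring⟩, ?_⟩
        · have : 1 ≤ 2 ^ t := Nat.one_le_two_pow
          have e : 2 ^ (t + 1) * p ^ α = 2 * (2 ^ t * p ^ α) := by ring
          rw [e]
          nlinarith
        · obtain ⟨-, h5⟩ := h1 (r - 1) (by omega)
          rw [show r - 1 + 1 = r by omega, hend] at h5
          rw [h5]; ring
    refine ⟨hn, hr, k, ?_⟩
    intro k' hk'
    obtain ⟨s, rfl⟩ : ∃ s, k' = k + s := ⟨k' - k, by omega⟩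
    have e2 : k + s + r = s + (r + k) := by ring
    rw [e2, Function.iterate_add_apply, Function.iterate_add_apply, hm, hg,
      iter_two_mul h2 he, Nat.add_comm k s, Function.iterate_add_apply, hm]

end Pool.Agent.Results.MP_df8f2d_nt.PrimePowerCycle
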