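import Mathlib
import Pool.Agent.Results.MP_df8f2d_nt.PrimePowerCycle

namespace Pool.Agent.Results.MP_df8f2d_nt.FourPrimes

theorem two_case {y z : ℕ} (hy : 5 ≤ y) (hz : 5 ≤ z) (h : 3 * ((y - 1) * (z - 1)) = 2 * (y * z) + 2) :
    y * z = 35 := by
  obtain ⟨u, rfl⟩ : ∃ u, y = u + 5 := ⟨y - 5, by omega⟩
  obtain ⟨v, rfl⟩ : ∃ v, z = v + 5 := ⟨z - 5, by omega⟩
  have e1 : u + 5 - 1 = u + 4 := by omega
  have e2 : v + 5 - 1 = v + 4 := by omega
  rw [e1, e2] at h
  have h2 : (u + 2) * (v + 2) = 8 := by nlinarith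
  have hu : u ≤ 6 := by nlinarith
  have hv : v ≤ 6 := by nlinarith
  interval_cases u <;> interval_cases v <;> omega

theorem three_case_five {y z : ℕ} (hy : 7 ≤ y) (hz : 7 ≤ z)
    (h : 3 * (4 * ((y - 1) * (z - 1))) = 2 * (5 * (y * z)) + 2) : y * z = 259 := by
  obtain ⟨u, rfl⟩ : ∃ u, y = u + 7 := ⟨y - 7, by omega⟩
  obtain ⟨v, rfl⟩ : ∃ v, z = v + 7 := ⟨z - 7, by omega⟩
  have e1 : u + 7 - 1 = u + 6 := by omega
  have e2 : v + 7 - 1 = v + 6 := by omega
  rw [e1, e2] at h
  have h2 : (u + 1) * (v + 1) = 31 := by nlinarith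
  have hdvd : u + 1 ∣ 31 := ⟨v + 1, h2.symm⟩
  rcases (Nat.dvd_prime (by norm_num)).1 hdvd with h3 | h3
  · have : u = 0 := by omega
    subst this
    omega
  · have : u = 30 := by omega
    subst this
    omega

theorem three_big {x y z : ℕ} (hx : 7 ≤ x) (hy : 11 ≤ y) (hz : 11 ≤ z)
    (h : 3 * ((x - 1) * ((y - 1) * (z - 1))) = 2 * (x * (y * z)) + 2) : False := by
  obtain ⟨t, rfl⟩ : ∃ t, x = t + 7 := ⟨x - 7, by omega⟩
  obtain ⟨u, rfl⟩ : ∃ u, y = u + 11 := ⟨y - 11, by omega⟩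
  obtain ⟨v, rfl⟩ : ∃ v, z = v + 11 := ⟨z - 11, by omega⟩
  have e0 : t + 7 - 1 = t + 6 := by omega
  have e1 : u + 11 - 1 = u + 10 := by omega
  have e2 : v + 11 - 1 = v + 10 := by omega
  rw [e0, e1, e2] at h
  ring_nf at h
  nlinarith [Nat.zero_le (t * u * v), Nat.zero_le (t * u), Nat.zero_le (t * v),
    Nat.zero_le (u * v)]

theorem small {a : ℕ} (ho : Odd a) (h : 3 * Nat.totient a = 2 * a + 2)
    (hc : a.primeFactors.card ≤ 3) : a = 5 ∨ a = 35 ∨ a = 1295 := by
  have ha0 : a ≠ 0 := by rintro rfl; simp at h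
  -- squarefree
  have hsq : Squarefree a := by
    rw [Nat.squarefree_iff_prime_squarefree]
    intro q hq hqq
    have h1 : q ∣ Nat.totient a := by
      have h2 : Nat.totient (q * q) ∣ Nat.totient a := Nat.totient_dvd_of_dvd hqq
      have h3 : Nat.totient (q * q) = q * (q - 1) := by
        have := Nat.totient_prime_pow hq (n := 2) (by norm_num)
        rw [pow_two] at this
        simpa using this
      rw [h3] at h2
      exact (Dvd.intro _ rfl).trans h2
    have h4 : q ∣ a := (Dvd.intro _ rfl).trans hqq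
    have h5 : q ∣ 2 * a + 2 := by rw [← h]; exact h1.mul_left 3
    have h6 : q ∣ 2 := (Nat.dvd_add_right (h4.mul_left 2)).1 h5
    have h7 : q = 2 := (Nat.prime_dvd_prime_iff_eq hq Nat.prime_two).1 h6
    subst h7
    rw [Nat.odd_iff] at ho
    omega
  have hprod : ∏ q ∈ a.primeFactors, q = a := Nat.prod_primeFactors_of_squarefree hsq
  have htot : Nat.totient a = ∏ q ∈ a.primeFactors, (q - 1) := by
    have := Nat.totient_mul_prod_primeFactors a
    rw [hprod, mul_comm a] at this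
    exact Nat.eq_of_mul_eq_mul_right (Nat.pos_of_ne_zero ha0) this
  have h5 : ∀ q ∈ a.primeFactors, 5 ≤ q ∧ q ≠ 6 ∧ q ≠ 8 ∧ q ≠ 9 ∧ q ≠ 10 := by
    intro q hq
    have hp := Nat.prime_of_mem_primeFactors hq
    have hd := Nat.dvd_of_mem_primeFactors hq
    have h2 : q ≠ 2 := by
      rintro rfl
      rw [Nat.odd_iff] at ho
      omega
    have h3 : q ≠ 3 := by
      rintro rfl
      obtain ⟨c, hc⟩ := hd
      omega
    have h4 : q ≠ 4 := by rintro rfl; revert hp; norm_num
    have := hp.two_le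
    refine ⟨by omega, ?_, ?_, ?_, ?_⟩ <;> (rintro rfl; revert hp; norm_num)
  rw [htot] at h
  nth_rewrite 2 [← hprod] at h
  rw [← hprod]
  generalize a.primeFactors = s at h5 hc h ⊢
  have hc4 : s.card = 0 ∨ s.card = 1 ∨ s.card = 2 ∨ s.card = 3 := by omega
  rcases hc4 with hs | hs | hs | hs
  · rw [Finset.card_eq_zero] at hs
    subst hs
    simp at h
  · obtain ⟨x, rfl⟩ := Finset.card_eq_one.1 hs
    simp only [Finset.prod_singleton] at h ⊢
    have := (h5 x (by simp)).1
    omega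
  · obtain ⟨x, y, hxy, rfl⟩ := Finset.card_eq_two.1 hs
    rw [Finset.prod_pair hxy] at h ⊢
    rw [Finset.prod_pair hxy] at h
    right; left
    exact two_case (h5 x (by simp)).1 (h5 y (by simp)).1 h
  · obtain ⟨x, y, z, hxy, hxz, hyz, rfl⟩ := Finset.card_eq_three.1 hs
    have e : ∀ f : ℕ → ℕ, ∏ q ∈ ({x, y, z} : Finset ℕ), f q = f x * (f y * f z) := by
      intro f
      rw [Finset.prod_insert (by simp [hxy, hxz]), Finset.prod_pair hyz]
    rw [e, e] at h
    rw [e]
    obtain ⟨hx, hx6, hx8, hx9, hx10⟩ := h5 x (by simp)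
    obtain ⟨hy, hy6, hy8, hy9, hy10⟩ := h5 y (by simp)
    obtain ⟨hz, hz6, hz8, hz9, hz10⟩ := h5 z (by simp)
    right; right
    by_cases hx5 : x = 5
    · subst hx5
      rw [three_case_five (y := y) (z := z) (by omega) (by omega) h]
    by_cases hy5 : y = 5
    · subst hy5
      have h' : 3 * (4 * ((x - 1) * (z - 1))) = 2 * (5 * (x * z)) + 2 := by
        have e1 : 3 * ((x - 1) * ((5 - 1) * (z - 1))) = 3 * (4 * ((x - 1) * (z - 1))) := by ring
        have e2 : 2 * (x * (5 * z)) + 2 = 2 * (5 * (x * z)) + 2 := by ring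
        rw [← e1, ← e2]; exact h
      have h3 := three_case_five (y := x) (z := z) (by omega) (by omega) h'
      have e3 : x * (5 * z) = 5 * (x * z) := by ring
      rw [e3, h3]
    by_cases hz5 : z = 5
    · subst hz5
      have h' : 3 * (4 * ((x - 1) * (y - 1))) = 2 * (5 * (x * y)) + 2 := by
        have e1 : 3 * ((x - 1) * ((y - 1) * (5 - 1))) = 3 * (4 * ((x - 1) * (y - 1))) := by ring
        have e2 : 2 * (x * (y * 5)) + 2 = 2 * (5 * (x * y)) + 2 := by ring
        rw [← e1, ← e2]; exact h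
      have h3 := three_case_five (y := x) (z := y) (by omega) (by omega) h'
      have e3 : x * (y * 5) = 5 * (x * y) := by ring
      rw [e3, h3]
    exfalso
    by_cases hx7 : x = 7
    · exact three_big (x := x) (y := y) (z := z) (by omega) (by omega) (by omega) h
    by_cases hy7 : y = 7
    · refine three_big (x := y) (y := x) (z := z) (by omega) (by omega) (by omega) ?_
      have e1 : 3 * ((y - 1) * ((x - 1) * (z - 1))) = 3 * ((x - 1) * ((y - 1) * (z - 1))) := by ring
      have e2 : 2 * (y * (x * z)) + 2 = 2 * (x * (y * z)) + 2 := by ring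
      rw [e1, e2]; exact h
    · refine three_big (x := z) (y := x) (z := y) (by omega) (by omega) (by omega) ?_
      have e1 : 3 * ((z - 1) * ((x - 1) * (y - 1))) = 3 * ((x - 1) * ((y - 1) * (z - 1))) := by ring
      have e2 : 2 * (z * (x * y)) + 2 = 2 * (x * (y * z)) + 2 := by ring
      rw [e1, e2]; exact h

theorem prime_case (p : ℕ) (hp : p.Prime) (h4 : p % 8 = 7)
    (h : Nat.totient ((3 * p - 1) / 4) = (p + 1) / 2) :
    p = 7 ∨ p = 47 ∨
      (Squarefree ((3 * p - 1) / 4) ∧ 4 ≤ ((3 * p - 1) / 4).primeFactors.card) := by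
  obtain ⟨a, ha⟩ : ∃ a, a = (3 * p - 1) / 4 := ⟨_, rfl⟩
  rw [← ha] at h ⊢
  have ho : Odd a := by rw [Nat.odd_iff]; omega
  have h3 : 3 * Nat.totient a = 2 * a + 2 := by omega
  by_cases hc : a.primeFactors.card ≤ 3
  · rcases small ho h3 hc with h5 | h5 | h5
    · left; omega
    · right; left; omega
    · exfalso
      have : p = 1727 := by omega
      subst this
      revert hp; norm_num
  · right; right
    refine ⟨?_, by omega⟩
    rw [Nat.squarefree_iff_prime_squarefree]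
    intro q hq hqq
    have h1 : q ∣ Nat.totient a := by
      have h2 : Nat.totient (q * q) ∣ Nat.totient a := Nat.totient_dvd_of_dvd hqq
      have h6 : Nat.totient (q * q) = q * (q - 1) := by
        have := Nat.totient_prime_pow hq (n := 2) (by norm_num)
        rw [pow_two] at this
        simpa using this
      rw [h6] at h2
      exact (Dvd.intro _ rfl).trans h2
    have h7 : q ∣ a := (Dvd.intro _ rfl).trans hqq
    have h8 : q ∣ 2 * a + 2 := by rw [← h3]; exact h1.mul_left 3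
    have h9 : q ∣ 2 := (Nat.dvd_add_right (h7.mul_left 2)).1 h8
    have h10 : q = 2 := (Nat.prime_dvd_prime_iff_eq hq Nat.prime_two).1 h9
    subst h10
    rw [Nat.odd_iff] at ho
    omega

open Pool.Agent.Results.MP_df8f2d_nt.PrimePowerCycle in
theorem result (n : ℕ) (hn : 0 < n) (h : IsSolution n 2) :
    (∃ k l : ℕ, 0 < l ∧
      (g^[k] n = 2 ^ (l + 1) ∨ g^[k] n = 2 ^ l * 7 ∨ g^[k] n = 2 ^ l * 47)) ∨
    (∃ k l p : ℕ, 0 < l ∧ p.Prime ∧ p % 8 = 7 ∧ g^[k] n = 2 ^ l * p ∧
      Nat.totient ((3 * p - 1) / 4) = (p + 1) / 2 ∧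
      Squarefree ((3 * p - 1) / 4) ∧ 4 ≤ ((3 * p - 1) / 4).primeFactors.card) := by
  rcases (PrimePowerCycle.result n 2 hn (by norm_num)).1 h with ⟨-, k, l, hl, hk⟩ |
    ⟨k, l, p, α, a, hl, hp, hp8, hα, hm, h0, hj, hend⟩
  · left
    obtain ⟨t, rfl⟩ : ∃ t, l = t + 2 := ⟨l - 2, by omega⟩
    exact ⟨k, t + 1, by omega, Or.inl hk⟩
  · obtain ⟨h4, h1⟩ := hj 0 (by norm_num)
    have hend' : a 1 = p ^ α := hend
    simp only [zero_add] at h1
    rw [hend'] at h1
    obtain ⟨β, rfl⟩ : ∃ β, α = β + 1 := ⟨α - 1, by omega⟩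
    simp only [Nat.add_sub_cancel] at h0
    obtain ⟨c, hc⟩ : ∃ c, 4 * c = 3 * p - 1 := ⟨(3 * p - 1) / 4, by omega⟩
    have ha : a 0 = p ^ β * c := by
      have : 4 * a 0 = 4 * (p ^ β * c) := by rw [h0, ← hc]; ring
      omega
    obtain ⟨y, hy⟩ := h4
    have hy2 : Nat.totient (a 0) / 2 = 2 * y := by omega
    rw [hy2, ha] at h1
    have hcp : c < p := by omega
    have hc0 : 0 < c := by have := hp.two_le; omega
    have hβ : β = 0 := by
      by_contra hne
      obtain ⟨γ, rfl⟩ : ∃ γ, β = γ + 1 := ⟨β - 1, by omega⟩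
      have hcop : Nat.Coprime p c := by
        rw [Nat.Prime.coprime_iff_not_dvd hp]
        intro hd
        exact absurd (Nat.le_of_dvd hc0 hd) (by omega)
      rw [ha, Nat.totient_mul (Nat.Coprime.pow_left _ hcop),
        Nat.totient_prime_pow hp (by omega)] at hy
      simp only [Nat.add_sub_cancel] at hy
      -- 2 * (p ^ (γ+1) * (p - c)) = p ^ γ * ((p - 1) * φ c)
      obtain ⟨d, hd⟩ : ∃ d, p = c + d := ⟨p - c, by omega⟩
      have h6 : p ^ γ * (2 * (p * d)) = p ^ γ * ((p - 1) * Nat.totient c) := by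
        have e1 : p ^ (γ + 1 + 1) = p ^ (γ + 1) * c + p ^ (γ + 1) * d := by
          rw [← mul_add, ← hd]; ring
        rw [e1] at h1
        have h7 : p ^ (γ + 1) * d = 2 * y := by omega
        calc p ^ γ * (2 * (p * d)) = 2 * (p ^ (γ + 1) * d) := by ring
          _ = 4 * y := by rw [h7]; ring
          _ = p ^ γ * ((p - 1) * Nat.totient c) := by rw [← hy]; ring
      have h8 := Nat.eq_of_mul_eq_mul_left (Nat.pow_pos hp.pos) h6
      have h9 : p ∣ (p - 1) * Nat.totient c := by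
        rw [← h8]; exact ⟨2 * d, by ring⟩
      have hp2 := hp.two_le
      rcases (Nat.Prime.dvd_mul hp).1 h9 with h10 | h10
      · exact absurd (Nat.le_of_dvd (by omega) h10) (by omega)
      · have h11 : 0 < Nat.totient c := Nat.totient_pos.2 hc0
        have h12 := Nat.totient_le c
        exact absurd (Nat.le_of_dvd h11 h10) (by omega)
    subst hβ
    simp only [pow_zero, one_mul, zero_add, pow_one] at ha h1 hm
    have hc' : c = (3 * p - 1) / 4 := by omega
    have hphi : Nat.totient ((3 * p - 1) / 4) = (p + 1) / 2 := by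
      rw [← hc', ← ha, hy]; omega
    rcases prime_case p hp hp8 hphi with h7 | h7 | h7
    · left; exact ⟨k, l, hl, Or.inr (Or.inl (by rw [hm, h7]))⟩
    · left; exact ⟨k, l, hl, Or.inr (Or.inr (by rw [hm, h7]))⟩
    · right
      exact ⟨k, l, p, hl, hp, hp8, hm, hphi, h7.1, h7.2⟩

end Pool.Agent.Results.MP_df8f2d_nt.FourPrimes
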